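import Mathlib

/-!
# A 3-chromatic graph with an IRC-colouring with 4 colours and none with 3 colours
-/

namespace Pool.Agent.Results.MP_c3fc26_co.FourNotThree

/-- The private neighbourhood `pn[v, S] = N[v] \ ⋃_{u ∈ S, u ≠ v} N[u]`. -/
def pn {V : Type} (G : SimpleGraph V) (v : V) (S : Set V) : Set V :=
  {w | (w = v ∨ G.Adj v w) ∧ ∀ u ∈ S, u ≠ v → ¬ (w = u ∨ G.Adj u w)}

/-- A set is irredundant if each of its members has a nonempty private neighbourhood. -/
def Irredundant {V : Type} (G : SimpleGraph V) (S : Set V) : Prop :=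
  ∀ v ∈ S, (pn G v S).Nonempty

/-- `G` has an IRC-colouring with `k` colours: a proper colouring in which all `k` colours are used
such that every rainbow committee is irredundant. -/
def HasIRC {V : Type} (G : SimpleGraph V) (k : ℕ) : Prop :=
  ∃ c : V → Fin k, Function.Surjective c ∧ (∀ u v, G.Adj u v → c u ≠ c v) ∧
    ∀ s : Fin k → V, (∀ i, c (s i) = i) → Irredundant G (Set.range s)

/-- The statement of the question: every (finite connected) IRC-colourable graph has an
IRC-colouring with `χ(G)` colours. -/
def Question : Prop :=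
  ∀ (V : Type) [Finite V] (G : SimpleGraph V), G.Connected → (∃ k, HasIRC G k) →
    ∀ k : ℕ, G.chromaticNumber = k → HasIRC G k

/-- The closed neighbourhoods of the graph, as bit masks. -/
def nbl : List ℕ := [248577, 640386, 610948, 1712136, 660496, 583840, 884928, 147686, 1360131,
  1851909, 1344530, 1361953, 1085460, 335912, 19367, 40291, 73799, 131225, 274240, 524926, 1056520]

def nb (i : Fin 21) : ℕ := nbl.getD i.val 0

/-- The graph on `21` vertices. -/
def G : SimpleGraph (Fin 21) where
  Adj i j := i ≠ j ∧ (nb i).testBit j = true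
  symm := ⟨by decide +kernel⟩
  loopless := ⟨fun i h => h.1 rfl⟩

instance : DecidableRel G.Adj := fun i j =>
  inferInstanceAs (Decidable (i ≠ j ∧ (nb i).testBit j = true))

theorem diag : ∀ i : Fin 21, (nb i).testBit i = true := by decide +kernel

theorem closed_iff (v w : Fin 21) : (w = v ∨ G.Adj v w) ↔ (nb v).testBit w = true := by
  constructor
  · rintro (rfl | h)
    · exact diag w
    · exact h.2
  · intro h
    by_cases hw : w = v
    · exact Or.inl hw
    · exact Or.inr ⟨fun h' => hw h'.symm, h⟩

/-- The colouring with four colours. -/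
def c4 (i : Fin 21) : Fin 4 :=
  if i.val = 0 ∨ i.val = 7 then 3 else if i.val < 7 then 0 else if i.val < 14 then 1 else 2

/-- The colouring with three colours. -/
def c3 (i : Fin 21) : Fin 3 :=
  if i.val < 7 then 0 else if i.val < 14 then 1 else 2

def ok4 (a b c d : Fin 21) : Bool :=
  (nb a &&& (nb b ||| nb c ||| nb d)) != nb a

theorem ok4_spec {a b c d : Fin 21} (h : ok4 a b c d = true) :
    ∃ w : Fin 21, (nb a).testBit w = true ∧ (nb b).testBit w = false ∧
      (nb c).testBit w = false ∧ (nb d).testBit w = false := by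
  by_contra hne
  push Not at hne
  have hb : ∀ i : Fin 21, nb i < 2 ^ 21 := by decide +kernel
  apply (bne_iff_ne.1 h)
  apply Nat.eq_of_testBit_eq
  intro j
  rw [Nat.testBit_and, Nat.testBit_or, Nat.testBit_or]
  by_cases hj : j < 21
  · cases ha : (nb a).testBit j
    · rfl
    · cases h1 : (nb b).testBit j
      · cases h2 : (nb c).testBit j
        · cases h3 : (nb d).testBit j
          · exact absurd h3 (hne ⟨j, hj⟩ ha h1 h2)
          · rfl
        · rfl
      · rfl
  · have : (nb a).testBit j = false := by
      apply Nat.testBit_eq_false_of_lt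
      exact lt_of_lt_of_le (hb a) (Nat.pow_le_pow_right (by norm_num) (by omega))
    rw [this]; rfl

theorem check4 : ∀ a : Fin 21, c4 a = 0 → ∀ b : Fin 21, c4 b = 1 → ∀ c : Fin 21, c4 c = 2 →
    ∀ d : Fin 21, c4 d = 3 →
      (ok4 a b c d && ok4 b a c d && ok4 c a b d && ok4 d a b c) = true := by
  decide +kernel

theorem irc4 : HasIRC G 4 := by
  refine ⟨c4, ?_, ?_, ?_⟩
  · decide +kernel
  · decide +kernel
  · intro s hs
    have h := check4 (s 0) (hs 0) (s 1) (hs 1) (s 2) (hs 2) (s 3) (hs 3)
    simp only [Bool.and_eq_true] at h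
    obtain ⟨⟨⟨h0, h1⟩, h2⟩, h3⟩ := h
    rintro v ⟨i, rfl⟩
    have key : ∃ w : Fin 21, (nb (s i)).testBit w = true ∧
        ∀ j : Fin 4, j ≠ i → (nb (s j)).testBit w = false := by
      fin_cases i
      · obtain ⟨w, e0, e1, e2, e3⟩ := ok4_spec h0
        refine ⟨w, e0, fun j hj => ?_⟩
        fin_cases j <;> first | exact absurd rfl hj | assumption
      · obtain ⟨w, e0, e1, e2, e3⟩ := ok4_spec h1
        refine ⟨w, e0, fun j hj => ?_⟩
        fin_cases j <;> first | exact absurd rfl hj | assumption
      · obtain ⟨w, e0, e1, e2, e3⟩ := ok4_spec h2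
        refine ⟨w, e0, fun j hj => ?_⟩
        fin_cases j <;> first | exact absurd rfl hj | assumption
      · obtain ⟨w, e0, e1, e2, e3⟩ := ok4_spec h3
        refine ⟨w, e0, fun j hj => ?_⟩
        fin_cases j <;> first | exact absurd rfl hj | assumption
    obtain ⟨w, hw, hw'⟩ := key
    refine ⟨w, (closed_iff _ _).2 hw, ?_⟩
    rintro u ⟨j, rfl⟩ hu
    rw [closed_iff, hw' j (fun h => hu (by rw [h]))]
    simp

theorem not_irc3 : ¬ HasIRC G 3 := by
  rintro ⟨c, -, hc, hirc⟩
  have a1 := hc 0 8 (by decide +kernel)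
  have a2 := hc 0 15 (by decide +kernel)
  have a3 := hc 8 15 (by decide +kernel)
  have a4 := hc 1 8 (by decide +kernel)
  have a5 := hc 1 15 (by decide +kernel)
  have a6 := hc 1 7 (by decide +kernel)
  have a7 := hc 14 0 (by decide +kernel)
  have a8 := hc 14 7 (by decide +kernel)
  have a9 : c 0 ≠ c 7 := by
    intro h
    revert a1 a2 a3 a4 a5 a6 h
    generalize c 0 = p
    generalize c 8 = q
    generalize c 15 = r
    generalize c 1 = t
    generalize c 7 = s
    revert p q r t s
    decide +kernel
  -- the rainbow committee `{0, 7, 14}`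
  let s : Fin 3 → Fin 21 := fun i => if c 0 = i then 0 else if c 7 = i then 7 else 14
  have hs : ∀ i, c (s i) = i := by
    intro i
    by_cases h0 : c 0 = i
    · simp only [s, h0, if_true]
    · by_cases h7 : c 7 = i
      · simp only [s, h0, h7, if_true, if_false]
      · simp only [s, h0, h7, if_false]
        revert a7 a8 a9 h0 h7
        generalize c 0 = p
        generalize c 7 = q
        generalize c 14 = r
        revert p q r i
        decide +kernel
  have h14 : (14 : Fin 21) ∈ Set.range s := ⟨c 14, by
    simp only [s, if_neg (Ne.symm a7), if_neg (Ne.symm a8)]⟩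
  have h0 : (0 : Fin 21) ∈ Set.range s := ⟨c 0, by simp only [s, if_true]⟩
  have h7 : (7 : Fin 21) ∈ Set.range s := ⟨c 7, by simp only [s, if_neg a9, if_true]⟩
  obtain ⟨w, hw1, hw2⟩ := hirc s hs 14 h14
  have b0 := hw2 0 h0 (by decide)
  have b7 := hw2 7 h7 (by decide)
  rw [closed_iff] at hw1 b0 b7
  clear hw2
  revert w
  decide +kernel

theorem chi3 : G.chromaticNumber = 3 := by
  have h3 : G.Colorable 3 := ⟨SimpleGraph.Coloring.mk c3 (by
    intro v w h
    revert v w
    decide +kernel)⟩
  have h2 : ¬ G.Colorable 2 := by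
    rintro ⟨C⟩
    have a1 := C.valid (show G.Adj 0 8 by decide +kernel)
    have a2 := C.valid (show G.Adj 0 15 by decide +kernel)
    have a3 := C.valid (show G.Adj 8 15 by decide +kernel)
    revert a1 a2 a3
    generalize C 0 = p
    generalize C 8 = q
    generalize C 15 = r
    revert p q r
    decide +kernel
  apply le_antisymm
  · exact_mod_cast h3.chromaticNumber_le
  · by_contra hlt
    push Not at hlt
    apply h2
    rw [← SimpleGraph.chromaticNumber_le_iff_colorable]
    have : G.chromaticNumber < (2 : ℕ∞) + 1 := by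
      norm_num; exact hlt
    exact_mod_cast Order.le_of_lt_add_one this

theorem conn : G.Connected := by
  have h : ∀ i : Fin 21, i = 0 ∨ G.Adj i 0 ∨ ∃ j, G.Adj i j ∧ G.Adj j 0 := by decide +kernel
  have h0 : ∀ i : Fin 21, G.Reachable i 0 := by
    intro i
    rcases h i with rfl | h | ⟨j, h1, h2⟩
    · exact SimpleGraph.Reachable.refl _
    · exact h.reachable
    · exact h1.reachable.trans h2.reachable
  exact { preconnected := fun u v => (h0 u).trans (h0 v).symm, nonempty := ⟨0⟩ }

/-- **The answer is no.**  There is a connected graph `G` on `21` vertices with `χ(G) = 3` which has an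
IRC-colouring with four colours but none with three colours. -/
theorem result :
    ¬ Question ∧
    ∃ G : SimpleGraph (Fin 21), G.Connected ∧ G.chromaticNumber = 3 ∧ HasIRC G 4 ∧ ¬ HasIRC G 3 := by
  refine ⟨?_, G, conn, chi3, irc4, not_irc3⟩
  intro H
  exact not_irc3 (H (Fin 21) G conn ⟨4, irc4⟩ 3 chi3)

end Pool.Agent.Results.MP_c3fc26_co.FourNotThree
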